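import Pool.Agent.helper37.P2.SpecA

/-! Row p2:STO (MP_063734_an): symmetry of the mixed Monge-Ampere integral. -/

set_option autoImplicit false

open scoped ContDiff Topology
open MeasureTheory Filter Set Metric MvPolynomial Pool.Agent.helper37.QA

namespace Pool.Agent.P2

/-- directional derivative -/
noncomputable def STO_d (v : ℂ × ℂ) (f : ℂ × ℂ → ℝ) : ℂ × ℂ → ℝ := fun p => fderiv ℝ f p v

theorem STO_sm {f : ℂ × ℂ → ℝ} (hf : ContDiff ℝ ∞ f) (v : ℂ × ℂ) : ContDiff ℝ ∞ (STO_d v f) :=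
  (hf.fderiv_right (m := ∞) (by simp)).clm_apply contDiff_const

theorem STO_cm {f g : ℂ × ℂ → ℝ} (hf : ContDiff ℝ ∞ f) (hg : ContDiff ℝ ∞ g) : ContDiff ℝ ∞ (f * g) :=
  hf.mul hg

theorem STO_ca {f g : ℂ × ℂ → ℝ} (hf : ContDiff ℝ ∞ f) (hg : ContDiff ℝ ∞ g) : ContDiff ℝ ∞ (f + g) :=
  hf.add hg

theorem STO_cu {f g : ℂ × ℂ → ℝ} (hf : ContDiff ℝ ∞ f) (hg : ContDiff ℝ ∞ g) : ContDiff ℝ ∞ (f - g) :=
  hf.sub hg

theorem STO_cn {f : ℂ × ℂ → ℝ} (hf : ContDiff ℝ ∞ f) : ContDiff ℝ ∞ (-f) := hf.neg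

theorem STO_df {f : ℂ × ℂ → ℝ} (hf : ContDiff ℝ ∞ f) (p : ℂ × ℂ) : DifferentiableAt ℝ f p :=
  (hf.differentiable (by simp)) p

theorem STO_mul {f g : ℂ × ℂ → ℝ} (hf : ContDiff ℝ ∞ f) (hg : ContDiff ℝ ∞ g) (v : ℂ × ℂ) :
    STO_d v (f * g) = STO_d v f * g + f * STO_d v g := by
  funext p
  have h := ((STO_df hf p).hasFDerivAt.mul (STO_df hg p).hasFDerivAt).fderiv
  show fderiv ℝ (f * g) p v = STO_d v f p * g p + f p * STO_d v g p
  have h2 : fderiv ℝ (f * g) p = f p • fderiv ℝ g p + g p • fderiv ℝ f p := h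
  rw [h2]
  simp only [STO_d, ContinuousLinearMap.add_apply, ContinuousLinearMap.smul_apply, smul_eq_mul]
  ring

theorem STO_add {f g : ℂ × ℂ → ℝ} (hf : ContDiff ℝ ∞ f) (hg : ContDiff ℝ ∞ g) (v : ℂ × ℂ) :
    STO_d v (f + g) = STO_d v f + STO_d v g := by
  funext p
  have h2 : fderiv ℝ (f + g) p = fderiv ℝ f p + fderiv ℝ g p :=
    ((STO_df hf p).hasFDerivAt.add (STO_df hg p).hasFDerivAt).fderiv
  show fderiv ℝ (f + g) p v = STO_d v f p + STO_d v g p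
  rw [h2]
  rfl

theorem STO_sub {f g : ℂ × ℂ → ℝ} (hf : ContDiff ℝ ∞ f) (hg : ContDiff ℝ ∞ g) (v : ℂ × ℂ) :
    STO_d v (f - g) = STO_d v f - STO_d v g := by
  funext p
  have h2 : fderiv ℝ (f - g) p = fderiv ℝ f p - fderiv ℝ g p :=
    ((STO_df hf p).hasFDerivAt.sub (STO_df hg p).hasFDerivAt).fderiv
  show fderiv ℝ (f - g) p v = STO_d v f p - STO_d v g p
  rw [h2]
  rfl

theorem STO_neg {f : ℂ × ℂ → ℝ} (hf : ContDiff ℝ ∞ f) (v : ℂ × ℂ) :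
    STO_d v (-f) = -STO_d v f := by
  funext p
  have h2 : fderiv ℝ (-f) p = -fderiv ℝ f p := (STO_df hf p).hasFDerivAt.neg.fderiv
  show fderiv ℝ (-f) p v = -STO_d v f p
  rw [h2]
  rfl

theorem STO_dd {f : ℂ × ℂ → ℝ} (hf : ContDiff ℝ ∞ f) (p a b : ℂ × ℂ) :
    STO_d a (STO_d b f) p = fderiv ℝ (fderiv ℝ f) p a b := by
  have hd : DifferentiableAt ℝ (fderiv ℝ f) p :=
    ((hf.fderiv_right (m := ∞) (by simp)).differentiable (by simp)) p
  show fderiv ℝ (fun q => fderiv ℝ f q b) p a = _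
  rw [fderiv_clm_apply hd (differentiableAt_const _)]
  simp

theorem STO_comm {f : ℂ × ℂ → ℝ} (hf : ContDiff ℝ ∞ f) (v w : ℂ × ℂ) :
    STO_d v (STO_d w f) = STO_d w (STO_d v f) := by
  funext p
  have hs : IsSymmSndFDerivAt ℝ f p := hf.contDiffAt.isSymmSndFDerivAt
    (by rw [minSmoothness_of_isRCLikeNormedField]; exact WithTop.coe_le_coe.2 le_top)
  rw [STO_dd hf, STO_dd hf]
  exact hs v w

theorem STO_lev {g : ℂ × ℂ → ℝ} (hg : ContDiff ℝ ∞ g) (p a : ℂ × ℂ) :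
    lev g p a = (1 / 4) * (fderiv ℝ (fderiv ℝ g) p a a +
      fderiv ℝ (fderiv ℝ g) p (Complex.I • a) (Complex.I • a)) := by
  let L : ℂ →L[ℝ] ℂ × ℂ := (ContinuousLinearMap.toSpanSingleton ℂ a).restrictScalars ℝ
  have hL : ∀ t : ℂ, L t = t • a := fun t => rfl
  have hA : ∀ t : ℂ, HasFDerivAt (fun t : ℂ => p + t • a) L t := by
    intro t
    exact L.hasFDerivAt.const_add p
  have h1 : fderiv ℝ (fun t : ℂ => g (p + t • a)) = fun t => (fderiv ℝ g (p + t • a)).comp L := by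
    funext t
    exact ((STO_df hg (p + t • a)).hasFDerivAt.comp t (hA t)).fderiv
  have hd : DifferentiableAt ℝ (fderiv ℝ g) (p + (0 : ℂ) • a) :=
    ((hg.fderiv_right (m := ∞) (by simp)).differentiable (by simp)) _
  have h2 : HasFDerivAt (fun t : ℂ => fderiv ℝ g (p + t • a))
      ((fderiv ℝ (fderiv ℝ g) (p + (0 : ℂ) • a)).comp L) 0 :=
    hd.hasFDerivAt.comp 0 (hA 0)
  have key : ∀ v w : ℂ, fderiv ℝ (fderiv ℝ (fun t : ℂ => g (p + t • a))) 0 v w =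
      fderiv ℝ (fderiv ℝ g) p (v • a) (w • a) := by
    intro v w
    rw [h1]
    have h3 := (((ContinuousLinearMap.compL ℝ ℂ (ℂ × ℂ) ℝ).flip L).hasFDerivAt.comp (0 : ℂ) h2).fderiv
    have h4 : fderiv ℝ (fun t : ℂ => (fderiv ℝ g (p + t • a)).comp L) 0 =
      ((ContinuousLinearMap.compL ℝ ℂ (ℂ × ℂ) ℝ).flip L).comp
        ((fderiv ℝ (fderiv ℝ g) (p + (0 : ℂ) • a)).comp L) := h3
    rw [h4, zero_smul, add_zero]
    rfl
  unfold lev lap
  rw [iteratedFDeriv_two_apply, iteratedFDeriv_two_apply]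
  simp only [Matrix.cons_val_zero, Matrix.cons_val_one]
  rw [key, key, one_smul]

/-- the four real directions -/
def STO_e1 : ℂ × ℂ := (1, 0)
def STO_e2 : ℂ × ℂ := (Complex.I, 0)
def STO_e3 : ℂ × ℂ := (0, 1)
def STO_e4 : ℂ × ℂ := (0, Complex.I)

theorem STO_lev1 {g : ℂ × ℂ → ℝ} (hg : ContDiff ℝ ∞ g) (p : ℂ × ℂ) :
    lev g p (1, 0) = (1 / 4) * (STO_d STO_e1 (STO_d STO_e1 g) p + STO_d STO_e2 (STO_d STO_e2 g) p) := by
  rw [STO_lev hg, STO_dd hg, STO_dd hg]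
  have h : Complex.I • ((1 : ℂ), (0 : ℂ)) = STO_e2 := by
    simp [STO_e2]
  rw [h]
  rfl

theorem STO_lev2 {g : ℂ × ℂ → ℝ} (hg : ContDiff ℝ ∞ g) (p : ℂ × ℂ) :
    lev g p (0, 1) = (1 / 4) * (STO_d STO_e3 (STO_d STO_e3 g) p + STO_d STO_e4 (STO_d STO_e4 g) p) := by
  rw [STO_lev hg, STO_dd hg, STO_dd hg]
  have h : Complex.I • ((0 : ℂ), (1 : ℂ)) = STO_e4 := by
    simp [STO_e4]
  rw [h]
  rfl

theorem STO_lre {g : ℂ × ℂ → ℝ} (hg : ContDiff ℝ ∞ g) (p : ℂ × ℂ) :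
    lre g p = (1 / 4) * (STO_d STO_e1 (STO_d STO_e3 g) p + STO_d STO_e2 (STO_d STO_e4 g) p) := by
  unfold lre
  rw [STO_lev1 hg, STO_lev2 hg, STO_lev hg]
  have h1 : ((1 : ℂ), (1 : ℂ)) = STO_e1 + STO_e3 := by
    simp [STO_e1, STO_e3]
  have h2 : Complex.I • ((1 : ℂ), (1 : ℂ)) = STO_e2 + STO_e4 := by
    simp [STO_e2, STO_e4]
  have c13 := congrFun (STO_comm hg STO_e1 STO_e3) p
  have c24 := congrFun (STO_comm hg STO_e2 STO_e4) p
  rw [h2, h1]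
  simp only [STO_dd hg] at c13 c24 ⊢
  simp only [map_add, _root_.add_apply]
  linear_combination (-1 / 8) * c13 + (-1 / 8) * c24

theorem STO_lim {g : ℂ × ℂ → ℝ} (hg : ContDiff ℝ ∞ g) (p : ℂ × ℂ) :
    lim g p = (1 / 4) * (STO_d STO_e1 (STO_d STO_e4 g) p - STO_d STO_e2 (STO_d STO_e3 g) p) := by
  unfold lim
  rw [STO_lev1 hg, STO_lev2 hg, STO_lev hg]
  have h1 : ((1 : ℂ), Complex.I) = STO_e1 + STO_e4 := by
    simp [STO_e1, STO_e4]
  have h2 : Complex.I • ((1 : ℂ), Complex.I) = STO_e2 - STO_e3 := by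
    simp [STO_e2, STO_e3]
  have c14 := congrFun (STO_comm hg STO_e1 STO_e4) p
  have c23 := congrFun (STO_comm hg STO_e2 STO_e3) p
  rw [h2, h1]
  simp only [STO_dd hg] at c14 c23 ⊢
  simp only [map_add, map_sub, _root_.add_apply, _root_.sub_apply]
  linear_combination (-1 / 8) * c14 + (1 / 8) * c23


theorem STO_cs {f : ℂ × ℂ → ℝ} (hf : HasCompactSupport f) (v : ℂ × ℂ) : HasCompactSupport (STO_d v f) :=
  hf.fderiv_apply ℝ v

theorem STO_integrable {f : ℂ × ℂ → ℝ} (hf : ContDiff ℝ ∞ f) (hc : HasCompactSupport f) :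
    Integrable f :=
  hf.continuous.integrable_of_hasCompactSupport hc

theorem STO_int {f : ℂ × ℂ → ℝ} (hf : ContDiff ℝ ∞ f) (hc : HasCompactSupport f) (v : ℂ × ℂ) :
    ∫ p, STO_d v f p = 0 := by
  haveI : (volume : Measure (ℂ × ℂ)).IsAddHaarMeasure :=
    inferInstanceAs (((volume : Measure ℂ).prod (volume : Measure ℂ)).IsAddHaarMeasure)
  have i1 : Integrable (fun x => fderiv ℝ f x v) := STO_integrable (STO_sm hf v) (STO_cs hc v)
  have h := integral_mul_fderiv_eq_neg_fderiv_mul_of_integrable (μ := (volume : Measure (ℂ × ℂ)))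
    (f := fun _ : ℂ × ℂ => (1 : ℝ)) (g := f) (v := v)
    (by simp) (by simpa using i1)
    (by simpa using STO_integrable hf hc) (fun x _ => differentiableAt_const _)
    (fun x _ => STO_df hf x)
  simpa [STO_d] using h

/-- derivative of a sum of three products -/
theorem STO_h3 {c1 c2 c3 w1 w2 w3 : ℂ × ℂ → ℝ} (h1 : ContDiff ℝ ∞ c1) (h2 : ContDiff ℝ ∞ c2)
    (h3 : ContDiff ℝ ∞ c3) (k1 : ContDiff ℝ ∞ w1) (k2 : ContDiff ℝ ∞ w2) (k3 : ContDiff ℝ ∞ w3)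
    (v p : ℂ × ℂ) : STO_d v (c1 * w1 + c2 * w2 + c3 * w3) p =
      STO_d v c1 p * w1 p + c1 p * STO_d v w1 p + (STO_d v c2 p * w2 p + c2 p * STO_d v w2 p) +
        (STO_d v c3 p * w3 p + c3 p * STO_d v w3 p) := by
  rw [STO_add (STO_ca (STO_cm h1 k1) (STO_cm h2 k2)) (STO_cm h3 k3), STO_add (STO_cm h1 k1) (STO_cm h2 k2),
    STO_mul h1 k1, STO_mul h2 k2, STO_mul h3 k3]
  rfl

theorem STO_w {a b c d : ℂ × ℂ → ℝ} (ha : ContDiff ℝ ∞ a) (hb : ContDiff ℝ ∞ b)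
    (hc : ContDiff ℝ ∞ c) (hd : ContDiff ℝ ∞ d) (v p : ℂ × ℂ) : STO_d v (a * b - c * d) p =
      STO_d v a p * b p + a p * STO_d v b p - (STO_d v c p * d p + c p * STO_d v d p) := by
  rw [STO_sub (STO_cm ha hb) (STO_cm hc hd), STO_mul ha hb, STO_mul hc hd]
  rfl

theorem STO_lev0 {κ : ℂ × ℂ → ℝ} (hκ : ContDiff ℝ ∞ κ) (p : ℂ × ℂ) (hp : p ∉ tsupport κ) (a : ℂ × ℂ) :
    lev κ p a = 0 := by
  have h1 : p ∉ tsupport (fderiv ℝ κ) := fun h => hp (tsupport_fderiv_subset ℝ h)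
  rw [STO_lev hκ, fderiv_of_notMem_tsupport ℝ h1]
  simp

theorem STO_MA0 {κ : ℂ × ℂ → ℝ} (hκ : ContDiff ℝ ∞ κ) (G : ℂ × ℂ → ℝ) (p : ℂ × ℂ) (hp : p ∉ tsupport κ) :
    MA κ G p = 0 := by
  unfold MA
  have h1 : lre κ p = 0 := by
    unfold lre
    simp only [STO_lev0 hκ p hp]
    norm_num
  have h2 : lim κ p = 0 := by
    unfold lim
    simp only [STO_lev0 hκ p hp]
    norm_num
  simp only [STO_lev0 hκ p hp, h1, h2]
  ring

theorem STO_MAs {A B : ℂ × ℂ → ℝ} (hA : ContDiff ℝ ∞ A) (hB : ContDiff ℝ ∞ B) : Continuous (MA A B) := by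
  have h : MA A B = fun p => MA A B p := rfl
  rw [h]
  unfold MA
  simp only [STO_lev1 hA, STO_lev2 hA, STO_lre hA, STO_lim hA, STO_lev1 hB, STO_lev2 hB, STO_lre hB,
    STO_lim hB]
  have cA : ∀ v w, Continuous (STO_d v (STO_d w A)) := fun v w => (STO_sm (STO_sm hA w) v).continuous
  have cB : ∀ v w, Continuous (STO_d v (STO_d w B)) := fun v w => (STO_sm (STO_sm hB w) v).continuous
  have q1 := cA STO_e1 STO_e1
  have q2 := cA STO_e2 STO_e2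
  have q3 := cA STO_e3 STO_e3
  have q4 := cA STO_e4 STO_e4
  have q5 := cA STO_e1 STO_e3
  have q6 := cA STO_e2 STO_e4
  have q7 := cA STO_e1 STO_e4
  have q8 := cA STO_e2 STO_e3
  have r1 := cB STO_e1 STO_e1
  have r2 := cB STO_e2 STO_e2
  have r3 := cB STO_e3 STO_e3
  have r4 := cB STO_e4 STO_e4
  have r5 := cB STO_e1 STO_e3
  have r6 := cB STO_e2 STO_e4
  have r7 := cB STO_e1 STO_e4
  have r8 := cB STO_e2 STO_e3
  fun_prop

theorem STO_four {f1 f2 f3 f4 : ℂ × ℂ → ℝ} (h1 : Integrable f1) (h2 : Integrable f2) (h3 : Integrable f3)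
    (h4 : Integrable f4) (z1 : ∫ p, f1 p = 0) (z2 : ∫ p, f2 p = 0) (z3 : ∫ p, f3 p = 0)
    (z4 : ∫ p, f4 p = 0) : ∫ p, (f1 p + f2 p + f3 p + f4 p) = 0 := by
  have e1 : Integrable (fun p => f1 p + f2 p) := h1.add h2
  have e2 : Integrable (fun p => f1 p + f2 p + f3 p) := e1.add h3
  rw [integral_add e2 h4, integral_add e1 h3, integral_add h1 h2, z1, z2, z3, z4]
  norm_num

/-- the divergence identity and its integral -/
theorem STO_glob (κ B G : ℂ × ℂ → ℝ) (hκ : ContDiff ℝ ∞ κ) (hc : HasCompactSupport κ)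
    (hB : ContDiff ℝ ∞ B) (hG : ContDiff ℝ ∞ G) :
    ∫ p, κ p * MA B G p = ∫ p, B p * MA κ G p := by
  -- notation
  obtain ⟨P, hP⟩ : ∃ P : ℂ × ℂ → ℝ, P = STO_d STO_e3 (STO_d STO_e3 G) + STO_d STO_e4 (STO_d STO_e4 G) := ⟨_, rfl⟩
  obtain ⟨Q, hQ⟩ : ∃ Q : ℂ × ℂ → ℝ, Q = STO_d STO_e1 (STO_d STO_e1 G) + STO_d STO_e2 (STO_d STO_e2 G) := ⟨_, rfl⟩
  obtain ⟨R, hR⟩ : ∃ R : ℂ × ℂ → ℝ, R = STO_d STO_e1 (STO_d STO_e3 G) + STO_d STO_e2 (STO_d STO_e4 G) := ⟨_, rfl⟩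
  obtain ⟨S, hS⟩ : ∃ S : ℂ × ℂ → ℝ, S = STO_d STO_e1 (STO_d STO_e4 G) - STO_d STO_e2 (STO_d STO_e3 G) := ⟨_, rfl⟩
  have sG : ∀ v w, ContDiff ℝ ∞ (STO_d v (STO_d w G)) := fun v w => STO_sm (STO_sm hG w) v
  have sP : ContDiff ℝ ∞ P := by rw [hP]; exact (sG _ _).add (sG _ _)
  have sQ : ContDiff ℝ ∞ Q := by rw [hQ]; exact (sG _ _).add (sG _ _)
  have sR : ContDiff ℝ ∞ R := by rw [hR]; exact (sG _ _).add (sG _ _)
  have sS : ContDiff ℝ ∞ S := by rw [hS]; exact (sG _ _).sub (sG _ _)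
  -- divergences
  have cm := fun v w => STO_comm hG v w
  have cmm := fun u v w => STO_comm (STO_sm hG u) v w
  have div1 : ∀ p, STO_d STO_e1 P p - STO_d STO_e3 R p - STO_d STO_e4 S p = 0 := by
    intro p
    rw [hP, hR, hS, STO_add (sG _ _) (sG _ _), STO_add (sG _ _) (sG _ _), STO_sub (sG _ _) (sG _ _)]
    simp only [Pi.add_apply, Pi.sub_apply]
    rw [cmm STO_e3 STO_e3 STO_e1, cmm STO_e4 STO_e3 STO_e2, cmm STO_e4 STO_e4 STO_e1,
      cmm STO_e3 STO_e4 STO_e2, cm STO_e4 STO_e3]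
    ring
  have div2 : ∀ p, STO_d STO_e2 P p + STO_d STO_e3 S p - STO_d STO_e4 R p = 0 := by
    intro p
    rw [hP, hR, hS, STO_add (sG _ _) (sG _ _), STO_add (sG _ _) (sG _ _), STO_sub (sG _ _) (sG _ _)]
    simp only [Pi.add_apply, Pi.sub_apply]
    rw [cmm STO_e4 STO_e3 STO_e1, cmm STO_e3 STO_e3 STO_e2, cmm STO_e3 STO_e4 STO_e1,
      cmm STO_e4 STO_e4 STO_e2, cm STO_e4 STO_e3]
    ring
  have div3 : ∀ p, STO_d STO_e3 Q p - STO_d STO_e1 R p + STO_d STO_e2 S p = 0 := by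
    intro p
    rw [hQ, hR, hS, STO_add (sG _ _) (sG _ _), STO_add (sG _ _) (sG _ _), STO_sub (sG _ _) (sG _ _)]
    simp only [Pi.add_apply, Pi.sub_apply]
    rw [cmm STO_e1 STO_e3 STO_e1, cmm STO_e2 STO_e3 STO_e2, cm STO_e3 STO_e1, cm STO_e3 STO_e2,
      cmm STO_e4 STO_e2 STO_e1]
    ring
  have div4 : ∀ p, STO_d STO_e4 Q p - STO_d STO_e1 S p - STO_d STO_e2 R p = 0 := by
    intro p
    rw [hQ, hR, hS, STO_add (sG _ _) (sG _ _), STO_add (sG _ _) (sG _ _), STO_sub (sG _ _) (sG _ _)]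
    simp only [Pi.add_apply, Pi.sub_apply]
    rw [cmm STO_e1 STO_e4 STO_e1, cmm STO_e2 STO_e4 STO_e2, cm STO_e4 STO_e1, cm STO_e4 STO_e2,
      cmm STO_e3 STO_e2 STO_e1]
    ring
  -- the fields
  obtain ⟨W, hW⟩ : ∃ W : ℂ × ℂ → ℂ × ℂ → ℝ, W = fun v => κ * STO_d v B - B * STO_d v κ := ⟨_, rfl⟩
  have hWv : ∀ v, W v = κ * STO_d v B - B * STO_d v κ := fun v => by rw [hW]
  have sW : ∀ v, ContDiff ℝ ∞ (W v) := by
    intro v
    rw [hWv]
    exact (hκ.mul (STO_sm hB v)).sub (hB.mul (STO_sm hκ v))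
  have cW : ∀ v, HasCompactSupport (W v) := by
    intro v
    rw [hWv]
    exact hc.mul_right.sub (STO_cs hc v).mul_left
  have dW : ∀ u v p, STO_d u (W v) p = STO_d u κ p * STO_d v B p + κ p * STO_d u (STO_d v B) p -
      (STO_d u B p * STO_d v κ p + B p * STO_d u (STO_d v κ) p) := by
    intro u v p
    rw [hWv]
    exact STO_w hκ (STO_sm hB v) hB (STO_sm hκ v) u p
  have sH : ∀ {c1 c2 c3 w1 w2 w3 : ℂ × ℂ → ℝ}, ContDiff ℝ ∞ c1 → ContDiff ℝ ∞ c2 → ContDiff ℝ ∞ c3 →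
      ContDiff ℝ ∞ w1 → ContDiff ℝ ∞ w2 → ContDiff ℝ ∞ w3 → ContDiff ℝ ∞ (c1 * w1 + c2 * w2 + c3 * w3) :=
    fun h1 h2 h3 k1 k2 k3 => ((h1.mul k1).add (h2.mul k2)).add (h3.mul k3)
  have cH : ∀ (c1 c2 c3 : ℂ × ℂ → ℝ) (v1 v2 v3 : ℂ × ℂ),
      HasCompactSupport (c1 * W v1 + c2 * W v2 + c3 * W v3) :=
    fun c1 c2 c3 v1 v2 v3 => ((cW v1).mul_left.add (cW v2).mul_left).add (cW v3).mul_left
  have H1 := sH sP (STO_cn sR) (STO_cn sS) (sW STO_e1) (sW STO_e3) (sW STO_e4)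
  have H2 := sH sP sS (STO_cn sR) (sW STO_e2) (sW STO_e3) (sW STO_e4)
  have H3 := sH sQ (STO_cn sR) sS (sW STO_e3) (sW STO_e1) (sW STO_e2)
  have H4 := sH sQ (STO_cn sS) (STO_cn sR) (sW STO_e4) (sW STO_e1) (sW STO_e2)
  have K1 := cH P (-R) (-S) STO_e1 STO_e3 STO_e4
  have K2 := cH P S (-R) STO_e2 STO_e3 STO_e4
  have K3 := cH Q (-R) S STO_e3 STO_e1 STO_e2
  have K4 := cH Q (-S) (-R) STO_e4 STO_e1 STO_e2
  have key : ∀ p, κ p * MA B G p - B p * MA κ G p = (1 / 16) *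
      (STO_d STO_e1 (P * W STO_e1 + (-R) * W STO_e3 + (-S) * W STO_e4) p +
        STO_d STO_e2 (P * W STO_e2 + S * W STO_e3 + (-R) * W STO_e4) p +
        STO_d STO_e3 (Q * W STO_e3 + (-R) * W STO_e1 + S * W STO_e2) p +
        STO_d STO_e4 (Q * W STO_e4 + (-S) * W STO_e1 + (-R) * W STO_e2) p) := by
    intro p
    rw [STO_h3 sP (STO_cn sR) (STO_cn sS) (sW STO_e1) (sW STO_e3) (sW STO_e4),
      STO_h3 sP sS (STO_cn sR) (sW STO_e2) (sW STO_e3) (sW STO_e4),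
      STO_h3 sQ (STO_cn sR) sS (sW STO_e3) (sW STO_e1) (sW STO_e2),
      STO_h3 sQ (STO_cn sS) (STO_cn sR) (sW STO_e4) (sW STO_e1) (sW STO_e2)]
    simp only [STO_neg sR, STO_neg sS, Pi.neg_apply, dW]
    rw [STO_comm hB STO_e3 STO_e1, STO_comm hB STO_e4 STO_e1, STO_comm hB STO_e3 STO_e2,
      STO_comm hB STO_e4 STO_e2, STO_comm hκ STO_e3 STO_e1, STO_comm hκ STO_e4 STO_e1,
      STO_comm hκ STO_e3 STO_e2, STO_comm hκ STO_e4 STO_e2]
    unfold MA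
    rw [STO_lev1 hB, STO_lev2 hB, STO_lre hB, STO_lim hB, STO_lev1 hG, STO_lev2 hG, STO_lre hG,
      STO_lim hG, STO_lev1 hκ, STO_lev2 hκ, STO_lre hκ, STO_lim hκ]
    have eP : P p = STO_d STO_e3 (STO_d STO_e3 G) p + STO_d STO_e4 (STO_d STO_e4 G) p := by rw [hP]; rfl
    have eQ : Q p = STO_d STO_e1 (STO_d STO_e1 G) p + STO_d STO_e2 (STO_d STO_e2 G) p := by rw [hQ]; rfl
    have eR : R p = STO_d STO_e1 (STO_d STO_e3 G) p + STO_d STO_e2 (STO_d STO_e4 G) p := by rw [hR]; rfl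
    have eS : S p = STO_d STO_e1 (STO_d STO_e4 G) p - STO_d STO_e2 (STO_d STO_e3 G) p := by rw [hS]; rfl
    rw [← eP, ← eQ, ← eR, ← eS]
    linear_combination (-(1 / 16) * W STO_e1 p) * div1 p + (-(1 / 16) * W STO_e2 p) * div2 p +
      (-(1 / 16) * W STO_e3 p) * div3 p + (-(1 / 16) * W STO_e4 p) * div4 p
  have I1 := STO_integrable (STO_sm H1 STO_e1) (STO_cs K1 STO_e1)
  have I2 := STO_integrable (STO_sm H2 STO_e2) (STO_cs K2 STO_e2)
  have I3 := STO_integrable (STO_sm H3 STO_e3) (STO_cs K3 STO_e3)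
  have I4 := STO_integrable (STO_sm H4 STO_e4) (STO_cs K4 STO_e4)
  have hI : ∫ p, (κ p * MA B G p - B p * MA κ G p) = 0 := by
    rw [integral_congr_ae (Eventually.of_forall key), integral_const_mul]
    rw [STO_four I1 I2 I3 I4 (STO_int H1 K1 _) (STO_int H2 K2 _) (STO_int H3 K3 _) (STO_int H4 K4 _),
      mul_zero]
  have J1 : Integrable (fun p => κ p * MA B G p) := by
    have h1 : Continuous (fun p => κ p * MA B G p) := hκ.continuous.mul (STO_MAs hB hG)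
    exact h1.integrable_of_hasCompactSupport
      (HasCompactSupport.intro hc fun x hx => by rw [image_eq_zero_of_notMem_tsupport hx, zero_mul])
  have J2 : Integrable (fun p => B p * MA κ G p) := by
    have h1 : Continuous (fun p => B p * MA κ G p) := hB.continuous.mul (STO_MAs hκ hG)
    exact h1.integrable_of_hasCompactSupport
      (HasCompactSupport.intro hc fun x hx => by rw [STO_MA0 hκ G x hx, mul_zero])
  rw [integral_sub J1 J2] at hI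
  linarith

theorem STO_levc {g g' : ℂ × ℂ → ℝ} {p : ℂ × ℂ} (h : g =ᶠ[𝓝 p] g') (a : ℂ × ℂ) : lev g p a = lev g' p a := by
  have ht : Tendsto (fun t : ℂ => p + t • a) (𝓝 0) (𝓝 p) := by
    have h1 : Continuous (fun t : ℂ => p + t • a) := by fun_prop
    have h2 := h1.tendsto 0
    simpa using h2
  have h2 : (fun t : ℂ => g (p + t • a)) =ᶠ[𝓝 0] fun t : ℂ => g' (p + t • a) := ht.eventually h
  unfold lev lap
  rw [(h2.iteratedFDeriv ℝ 2).eq_of_nhds]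

theorem STO_MAc {A A' B B' : ℂ × ℂ → ℝ} {p : ℂ × ℂ} (hA : A =ᶠ[𝓝 p] A') (hB : B =ᶠ[𝓝 p] B') :
    MA A B p = MA A' B' p := by
  unfold MA lre lim
  simp only [STO_levc hA, STO_levc hB]

theorem STO : STO_stmt := by
  intro Ω κ B G hΩ hκ hc hsub hB hG
  obtain ⟨L, hLc, hL1, hL2⟩ := exists_compact_between hc hΩ hsub
  obtain ⟨χ, hχ1, hχ0, -⟩ := exists_contMDiffMap_one_nhds_of_subset_interior
    (modelWithCornersSelf ℝ (ℂ × ℂ)) (n := ⊤) (isClosed_tsupport κ) hL1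
  have hχ : ContDiff ℝ ∞ (fun p => χ p) := χ.contMDiff.contDiff
  have sm : ∀ F : ℂ × ℂ → ℝ, ContDiffOn ℝ ∞ F Ω → ContDiff ℝ ∞ (fun p => χ p * F p) := by
    intro F hF
    rw [contDiff_iff_contDiffAt]
    intro p
    by_cases hp : p ∈ Ω
    · exact hχ.contDiffAt.mul (hF.contDiffAt (hΩ.mem_nhds hp))
    · have hpL : p ∈ Lᶜ := fun h => hp (hL2 h)
      have h1 : (fun p => χ p * F p) =ᶠ[𝓝 p] fun _ => (0 : ℝ) := by
        filter_upwards [hLc.isClosed.isOpen_compl.mem_nhds hpL] with x hx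
        rw [hχ0 x hx, zero_mul]
      exact contDiffAt_const.congr_of_eventuallyEq h1
  have ev : ∀ (F : ℂ × ℂ → ℝ) (p : ℂ × ℂ), p ∈ tsupport κ → F =ᶠ[𝓝 p] fun q => χ q * F q := by
    intro F p hp
    filter_upwards [(eventually_nhdsSet_iff_forall.1 hχ1) p hp] with x hx
    rw [hx, one_mul]
  have h := STO_glob κ (fun p => χ p * B p) (fun p => χ p * G p) hκ hc (sm B hB) (sm G hG)
  calc ∫ p, κ p * MA B G p = ∫ p, κ p * MA (fun p => χ p * B p) (fun p => χ p * G p) p := by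
        refine integral_congr_ae (Eventually.of_forall fun p => ?_)
        by_cases hp : p ∈ tsupport κ
        · show κ p * MA B G p = _
          rw [STO_MAc (ev B p hp) (ev G p hp)]
        · show κ p * _ = κ p * _
          rw [image_eq_zero_of_notMem_tsupport hp, zero_mul, zero_mul]
    _ = ∫ p, (χ p * B p) * MA κ (fun p => χ p * G p) p := h
    _ = ∫ p, B p * MA κ G p := by
        refine integral_congr_ae (Eventually.of_forall fun p => ?_)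
        by_cases hp : p ∈ tsupport κ
        · show χ p * B p * MA κ (fun p => χ p * G p) p = B p * MA κ G p
          rw [← (ev B p hp).eq_of_nhds, STO_MAc (Filter.EventuallyEq.refl _ κ) (ev G p hp)]
        · show χ p * B p * MA κ (fun p => χ p * G p) p = B p * MA κ G p
          rw [STO_MA0 hκ _ p hp, STO_MA0 hκ _ p hp, mul_zero, mul_zero]

end Pool.Agent.P2
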