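import Pool.Agent.helper15.P2.SpecN

set_option autoImplicit false

/-! Row `p2:NCV`: covering by islands. -/

open scoped ContDiff Topology ComplexConjugate
open MeasureTheory Filter Set Metric MvPolynomial Pool.Agent.helper37.QA

namespace Pool.Agent.P2N

open Pool.Agent.P2 Pool.Agent.P2I

/-- a finite net of points of the sphere -/
theorem NCV_net (ε : ℝ) (hε : 0 < ε) : ∃ (q : ℕ) (c : Fin q → ℂ × ℂ),
    (∀ j, (c j).1 * conj (c j).1 + (c j).2 * conj (c j).2 = 1) ∧
    ∀ p1 p2 : ℂ, (p1 ≠ 0 ∨ p2 ≠ 0) →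
      ∃ j, ‖(c j).2 * p1 - (c j).1 * p2‖ < ε * ‖(c j).1 * conj p1 + (c j).2 * conj p2‖ := by
  set K : Set (ℂ × ℂ) := {p | Complex.normSq p.1 + Complex.normSq p.2 = 1} with hK
  have hKc : IsCompact K := by
    refine Metric.isCompact_of_isClosed_isBounded ?_ ?_
    · refine isClosed_eq ?_ continuous_const
      exact (Complex.continuous_normSq.comp continuous_fst).add
        (Complex.continuous_normSq.comp continuous_snd)
    · refine (Metric.isBounded_iff_subset_closedBall (0 : ℂ × ℂ)).2 ⟨1, ?_⟩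
      intro p hp
      have hp' : Complex.normSq p.1 + Complex.normSq p.2 = 1 := hp
      rw [mem_closedBall_zero_iff, Prod.norm_def]
      have h1 : ‖p.1‖ ^ 2 ≤ 1 := by
        rw [← Complex.normSq_eq_norm_sq]
        linarith [Complex.normSq_nonneg p.2]
      have h2 : ‖p.2‖ ^ 2 ≤ 1 := by
        rw [← Complex.normSq_eq_norm_sq]
        linarith [Complex.normSq_nonneg p.1]
      refine max_le ?_ ?_
      · exact (sq_le_one_iff₀ (norm_nonneg _)).1 h1
      · exact (sq_le_one_iff₀ (norm_nonneg _)).1 h2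
  set U : ℂ × ℂ → Set (ℂ × ℂ) := fun a =>
    {p | ‖a.2 * p.1 - a.1 * p.2‖ < ε * ‖a.1 * conj p.1 + a.2 * conj p.2‖} with hU
  have hUo : ∀ a, IsOpen (U a) := by
    intro a
    refine isOpen_lt ?_ ?_
    · exact ((continuous_const.mul continuous_fst).sub (continuous_const.mul continuous_snd)).norm
    · exact continuous_const.mul ((continuous_const.mul (Complex.continuous_conj.comp
        continuous_fst)).add (continuous_const.mul (Complex.continuous_conj.comp
        continuous_snd))).norm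
  have hKU : ∀ a ∈ K, U a ∈ 𝓝 a := by
    intro a ha
    refine (hUo a).mem_nhds ?_
    show ‖a.2 * a.1 - a.1 * a.2‖ < ε * ‖a.1 * conj a.1 + a.2 * conj a.2‖
    have e1 : a.2 * a.1 - a.1 * a.2 = 0 := by ring
    have e2 : a.1 * conj a.1 + a.2 * conj a.2 = 1 := by
      rw [Complex.mul_conj, Complex.mul_conj, ← Complex.ofReal_add]
      have : Complex.normSq a.1 + Complex.normSq a.2 = 1 := ha
      rw [this, Complex.ofReal_one]
    rw [e1, e2, norm_zero, norm_one, mul_one]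
    exact hε
  obtain ⟨t, ht1, ht2⟩ := hKc.elim_nhds_subcover U hKU
  refine ⟨t.card, fun j => (t.equivFin.symm j : ℂ × ℂ), ?_, ?_⟩
  · intro j
    have ha := ht1 _ (t.equivFin.symm j).2
    rw [Complex.mul_conj, Complex.mul_conj, ← Complex.ofReal_add]
    have : Complex.normSq ((t.equivFin.symm j : ℂ × ℂ)).1 +
      Complex.normSq ((t.equivFin.symm j : ℂ × ℂ)).2 = 1 := ha
    rw [this, Complex.ofReal_one]
  · intro p1 p2 hp
    set S : ℝ := Complex.normSq p1 + Complex.normSq p2 with hS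
    have hS0 : 0 < S := by
      rcases hp with h | h
      · have := Complex.normSq_pos.2 h
        linarith [Complex.normSq_nonneg p2]
      · have := Complex.normSq_pos.2 h
        linarith [Complex.normSq_nonneg p1]
    set n : ℝ := Real.sqrt S with hn
    have hn0 : 0 < n := Real.sqrt_pos.2 hS0
    have hnn : n * n = S := Real.mul_self_sqrt hS0.le
    have hnc : (n : ℂ) ≠ 0 := by exact_mod_cast hn0.ne'
    have hmem : ((p1 / n, p2 / n) : ℂ × ℂ) ∈ K := by
      show Complex.normSq (p1 / n) + Complex.normSq (p2 / n) = 1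
      rw [Complex.normSq_div, Complex.normSq_div, Complex.normSq_ofReal, hnn, ← add_div, ← hS,
        div_self hS0.ne']
    obtain ⟨a, ha, hpa⟩ := Set.mem_iUnion₂.1 (ht2 hmem)
    refine ⟨t.equivFin ⟨a, ha⟩, ?_⟩
    simp only [Equiv.symm_apply_apply]
    have h1 : ‖a.2 * (p1 / n) - a.1 * (p2 / n)‖ <
        ε * ‖a.1 * conj (p1 / n) + a.2 * conj (p2 / n)‖ := hpa
    have e1 : a.2 * (p1 / n) - a.1 * (p2 / n) = (a.2 * p1 - a.1 * p2) / n := by ring
    have e2 : a.1 * conj (p1 / (n : ℂ)) + a.2 * conj (p2 / (n : ℂ)) =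
        (a.1 * conj p1 + a.2 * conj p2) / n := by
      rw [map_div₀, map_div₀, Complex.conj_ofReal]
      ring
    rw [e1, e2, norm_div, norm_div, Complex.norm_real, Real.norm_of_nonneg hn0.le, ← mul_div_assoc,
      div_lt_div_iff_of_pos_right hn0] at h1
    exact h1

theorem NCV_mono {P Q : ℂ → ℂ} {S S' : Set ℂ} {z : ℂ} {τ : ℝ} {X : ℂ → ℂ} (h : S ⊆ S')
    (hX : Br P Q S z τ X) : Br P Q S' z τ X :=
  ⟨hX.1, hX.2.1, fun t ht => ⟨h (hX.2.2 t ht).1, (hX.2.2 t ht).2⟩⟩

/-- moving the base point by less than `r/40` -/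
theorem NCV_point (hBRS : BRS_stmt) {P Q : ℂ → ℂ} (hA : P2I.Adm P Q) {r : ℝ} (hr : 0 < r)
    (hr8 : r ≤ 1 / 8) {x : ℂ} (hx : x ∈ ball (0 : ℂ) (4 / 5)) {X : ℂ → ℂ}
    (hX : Br P Q (ball 0 1 ∩ ball x (1 / 20)) x r X) {t : ℂ} (ht : ‖t‖ < r / 40) :
    X t ∈ ball (0 : ℂ) (9 / 10) ∧ ∃ X' : ℂ → ℂ, Br P Q (ball 0 (9 / 10)) (X t) (r / 2) X' ∧
      ∃ s ∈ ball (0 : ℂ) (r / 32), X' s = x := by
  have hS : (ball (0 : ℂ) 1 ∩ ball x (1 / 20)) ⊆ ball 0 (9 / 10) := by
    intro z hz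
    rw [mem_ball_zero_iff]
    have h1 : ‖z - x‖ < 1 / 20 := by rw [← dist_eq_norm]; exact hz.2
    have h2 : ‖x‖ < 4 / 5 := by rw [← mem_ball_zero_iff]; exact hx
    have h3 : z = (z - x) + x := by ring
    rw [h3]
    refine lt_of_le_of_lt (norm_add_le _ _) ?_
    linarith
  have htr : t ∈ ball (0 : ℂ) r := by
    rw [mem_ball_zero_iff]
    linarith
  refine ⟨hS (hX.2.2 t htr).1, ?_⟩
  have hx1 : x ∈ ball (0 : ℂ) 1 := by
    rw [mem_ball_zero_iff] at hx ⊢
    linarith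
  obtain ⟨l, hl, hB⟩ := hBRS P Q hA x hx1 _ r X Set.inter_subset_left (by linarith) hX t htr
  have hB' := hB (r / 2) (by
    intro s hs
    rw [mem_ball_zero_iff] at hs
    have h1 : ‖s + t‖ < r / 2 + r / 40 := lt_of_le_of_lt (norm_add_le _ _) (by linarith)
    have h2 : ‖conj t * s‖ ≤ (r / 40) * (r / 2) := by
      rw [norm_mul, RCLike.norm_conj]
      exact mul_le_mul ht.le hs.le (norm_nonneg _) (by linarith)
    have h3 : 1 - ‖conj t * s‖ ≤ ‖1 - conj t * s‖ := by
      have := norm_sub_norm_le (1 : ℂ) (conj t * s)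
      rw [norm_one] at this
      exact this
    have h4 : (r / 40) * (r / 2) ≤ 1 / 4 := by nlinarith
    have h5 : r * (3 / 4) ≤ r * ‖1 - conj t * s‖ :=
      mul_le_mul_of_nonneg_left (by linarith) hr.le
    linarith)
  have hl0 : l ≠ 0 := by
    intro h
    rw [h, norm_zero] at hl
    exact zero_ne_one hl
  refine ⟨_, NCV_mono hS hB', -(l⁻¹ * t), ?_, ?_⟩
  · rw [mem_ball_zero_iff, norm_neg, norm_mul, norm_inv, hl, inv_one, one_mul]
    linarith
  · have e1 : l * -(l⁻¹ * t) = -t := by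
      rw [mul_neg, ← mul_assoc, mul_inv_cancel₀ hl0, one_mul]
    show X ((l * -(l⁻¹ * t) + t) / (1 - conj t * (l * -(l⁻¹ * t)))) = x
    rw [e1, neg_add_cancel, zero_div]
    exact hX.2.1

/-- the values at `y` are parallel to `c` -/
theorem NCV_par {a b c1 c2 u v : ℂ} (h1 : u * b = v * a) (h2 : c1 * b = c2 * a)
    (hab : a ≠ 0 ∨ b ≠ 0) : u * c2 = v * c1 := by
  rcases hab with h | h
  · have : a * (u * c2) = a * (v * c1) := by
      linear_combination c1 * h1 - u * h2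
    exact mul_left_cancel₀ h this
  · have : b * (u * c2) = b * (v * c1) := by
      linear_combination c2 * h1 - v * h2
    exact mul_left_cancel₀ h this

/-- the image of a branch is open -/
theorem NCV_open (hBRA : BRA_stmt) {P Q : ℂ → ℂ} (hA : P2I.Adm P Q) {τ : ℝ} (hτ : 0 < τ)
    {y : ℂ} (hy : y ∈ ball (0 : ℂ) 1) {F : ℂ → ℂ} (hF : Br P Q (ball 0 1) y τ F) :
    IsOpen (F '' ball 0 τ) := by
  obtain ⟨-, hinj, -⟩ := (hBRA P Q hA y hy).2.1 τ F hτ hF
  have han : AnalyticOnNhd ℂ F (ball 0 τ) := hF.1.analyticOnNhd isOpen_ball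
  rcases han.is_constant_or_isOpen (convex_ball (0 : ℂ) τ).isPreconnected with ⟨w, hw⟩ | h
  · exfalso
    have h0 : (0 : ℂ) ∈ ball (0 : ℂ) τ := mem_ball_self hτ
    have h1 : ((τ / 2 : ℝ) : ℂ) ∈ ball (0 : ℂ) τ := by
      rw [mem_ball_zero_iff, Complex.norm_real, Real.norm_of_nonneg (by linarith)]
      linarith
    have := hinj h0 h1 ((hw _ h0).trans (hw _ h1).symm)
    have h2 : (τ / 2 : ℝ) = 0 := by exact_mod_cast this.symm
    linarith
  · exact h _ Subset.rfl isOpen_ball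

/-- two branches through points over the same point `c` of the sphere are equal or disjoint -/
theorem NCV_disj (hBRA : BRA_stmt) {P Q : ℂ → ℂ} (hA : P2I.Adm P Q) {τ : ℝ} (hτ : 0 < τ)
    {c1 c2 : ℂ} (hc : c1 * conj c1 + c2 * conj c2 = 1) {y y' : ℂ} (hy : y ∈ ball (0 : ℂ) 1)
    (hy' : y' ∈ ball (0 : ℂ) 1) (hyc : P y * c2 = Q y * c1) (hyc' : P y' * c2 = Q y' * c1)
    {F F' : ℂ → ℂ} (hF : Br P Q (ball 0 1) y τ F) (hF' : Br P Q (ball 0 1) y' τ F')
    {s s' : ℂ} (hs : s ∈ ball (0 : ℂ) τ) (hs' : s' ∈ ball (0 : ℂ) τ) (hFF : F s = F' s') :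
    y = y' := by
  obtain ⟨-, -, hR⟩ := (hBRA P Q hA y hy).2.1 τ F hτ hF
  obtain ⟨-, -, hR'⟩ := (hBRA P Q hA y' hy').2.1 τ F' hτ hF'
  -- the factors
  set lam : ℂ := P y * conj c1 + Q y * conj c2 with hlam
  set lam' : ℂ := P y' * conj c1 + Q y' * conj c2 with hlam'
  have eP : P y = lam * c1 := by
    rw [hlam]; linear_combination -(P y) * hc + conj c2 * hyc
  have eQ : Q y = lam * c2 := by
    rw [hlam]; linear_combination -(Q y) * hc - conj c1 * hyc
  have eP' : P y' = lam' * c1 := by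
    rw [hlam']; linear_combination -(P y') * hc + conj c2 * hyc'
  have eQ' : Q y' = lam' * c2 := by
    rw [hlam']; linear_combination -(Q y') * hc - conj c1 * hyc'
  have hl0 : lam ≠ 0 := by
    intro h
    rw [h, zero_mul] at eP eQ
    rcases hA.2.2 y hy with h' | h'
    · exact h' eP
    · exact h' eQ
  have hl0' : lam' ≠ 0 := by
    intro h
    rw [h, zero_mul] at eP' eQ'
    rcases hA.2.2 y' hy' with h' | h'
    · exact h' eP'
    · exact h' eQ'
  have hcl0 : conj lam ≠ 0 := (map_ne_zero _).2 hl0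
  have hcl0' : conj lam' ≠ 0 := (map_ne_zero _).2 hl0'
  -- the two coordinates
  have hHy : ∀ x, Hz P Q y x = lam * (Q x * c1 - P x * c2) /
      (conj lam * (P x * conj c1 + Q x * conj c2)) := by
    intro x
    unfold Hz
    rw [eP, eQ, map_mul, map_mul]
    congr 1 <;> ring
  have hHy' : ∀ x, Hz P Q y' x = lam' * (Q x * c1 - P x * c2) /
      (conj lam' * (P x * conj c1 + Q x * conj c2)) := by
    intro x
    unfold Hz
    rw [eP', eQ', map_mul, map_mul]
    congr 1 <;> ring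
  set l : ℂ := (lam' * conj lam) / (conj lam' * lam) with hl
  have hln0 : l ≠ 0 := div_ne_zero (mul_ne_zero hl0' hcl0) (mul_ne_zero hcl0' hl0)
  have hlnorm : ‖l‖ = 1 := by
    rw [hl, norm_div, norm_mul, norm_mul, RCLike.norm_conj, RCLike.norm_conj, div_self]
    exact mul_ne_zero (norm_ne_zero_iff.2 hl0') (norm_ne_zero_iff.2 hl0)
  have hHH : ∀ x, P x * conj c1 + Q x * conj c2 ≠ 0 → Hz P Q y' x = l * Hz P Q y x := by
    intro x hx
    rw [hHy, hHy', hl]
    field_simp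
  -- the bracket at values of the branches
  have hbr : ∀ t ∈ ball (0 : ℂ) τ, P (F t) * conj c1 + Q (F t) * conj c2 ≠ 0 := by
    intro t ht h
    have h1 := (hR t ht).1
    rw [eP, eQ, map_mul, map_mul] at h1
    apply h1
    linear_combination conj lam * h
  have hbr' : ∀ t ∈ ball (0 : ℂ) τ, P (F' t) * conj c1 + Q (F' t) * conj c2 ≠ 0 := by
    intro t ht h
    have h1 := (hR' t ht).1
    rw [eP', eQ', map_mul, map_mul] at h1
    apply h1
    linear_combination conj lam' * h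
  -- `s' = l s`
  have hss : s' = l * s := by
    have h1 := (hR s hs).2.1
    have h2 := (hR' s' hs').2.1
    rw [← hFF, hHH _ (hbr s hs), h1] at h2
    exact h2.symm
  have hmaps : ∀ u ∈ ball (0 : ℂ) τ, l * u ∈ ball (0 : ℂ) τ := by
    intro u hu
    rw [mem_ball_zero_iff] at hu ⊢
    rw [norm_mul, hlnorm, one_mul]
    exact hu
  set G : ℂ → ℂ := fun u => F' (l * u) with hG
  have hGd : DifferentiableOn ℂ G (ball 0 τ) := by
    refine hF'.1.comp ?_ hmaps
    exact (differentiable_id.const_mul l).differentiableOn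
  have hHF : ∀ u ∈ ball (0 : ℂ) τ, Hz P Q y (F u) = u := fun u hu => (hR u hu).2.1
  have hHG : ∀ u ∈ ball (0 : ℂ) τ, Hz P Q y (G u) = u := by
    intro u hu
    have h1 := (hR' _ (hmaps u hu)).2.1
    rw [hHH _ (hbr' _ (hmaps u hu))] at h1
    exact mul_left_cancel₀ hln0 h1
  -- local injectivity of the coordinate at `w = F s`
  have hFs1 : F s ∈ ball (0 : ℂ) 1 := (hF.2.2 s hs).1
  have hopen : IsOpen {x : ℂ | x ∈ ball (0 : ℂ) 1 ∧ P x * conj (P y) + Q x * conj (Q y) ≠ 0} := by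
    have hcont : ContinuousOn (fun x => P x * conj (P y) + Q x * conj (Q y)) (ball 0 1) :=
      (hA.1.continuousOn.mul continuousOn_const).add (hA.2.1.continuousOn.mul continuousOn_const)
    have := hcont.isOpen_inter_preimage isOpen_ball (isOpen_compl_singleton (x := (0 : ℂ)))
    exact this
  have hHd : DifferentiableOn ℂ (Hz P Q y)
      {x : ℂ | x ∈ ball (0 : ℂ) 1 ∧ P x * conj (P y) + Q x * conj (Q y) ≠ 0} := by
    intro x hx
    exact (((hBRA P Q hA y hy).1 x hx.1 hx.2).1).differentiableWithinAt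
  have hmemw : F s ∈ {x : ℂ | x ∈ ball (0 : ℂ) 1 ∧ P x * conj (P y) + Q x * conj (Q y) ≠ 0} :=
    ⟨hFs1, (hR s hs).1⟩
  have hHan : AnalyticAt ℂ (Hz P Q y) (F s) := (hHd.analyticOnNhd hopen) _ hmemw
  have hstr : HasStrictDerivAt (Hz P Q y) (deriv (Hz P Q y) (F s)) (F s) := hHan.hasStrictDerivAt
  have hFda : DifferentiableAt ℂ F s := hF.1.differentiableAt (isOpen_ball.mem_nhds hs)
  have hd0 : deriv (Hz P Q y) (F s) ≠ 0 := by
    have h1 : HasDerivAt (fun u => Hz P Q y (F u)) (deriv (Hz P Q y) (F s) * deriv F s) s :=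
      hstr.hasDerivAt.comp s hFda.hasDerivAt
    have h2 : HasDerivAt (fun u => Hz P Q y (F u)) 1 s := by
      refine (hasDerivAt_id s).congr_of_eventuallyEq ?_
      filter_upwards [isOpen_ball.mem_nhds hs] with u hu
      exact hHF u hu
    have h3 := h1.unique h2
    intro h
    rw [h, zero_mul] at h3
    exact zero_ne_one h3
  have hloc := HasStrictDerivAt.eventually_left_inverse hstr hd0
  have hGs : G s = F s := by
    show F' (l * s) = F s
    rw [← hss, hFF]
  have hGc : ContinuousAt G s := (hGd.differentiableAt (isOpen_ball.mem_nhds hs)).continuousAt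
  have hev : F =ᶠ[𝓝 s] G := by
    have h1 : ∀ᶠ u in 𝓝 s, HasStrictDerivAt.localInverse (Hz P Q y) (deriv (Hz P Q y) (F s)) (F s)
        hstr hd0 (Hz P Q y (F u)) = F u := hFda.continuousAt.eventually hloc
    have h2 : ∀ᶠ u in 𝓝 s, HasStrictDerivAt.localInverse (Hz P Q y) (deriv (Hz P Q y) (F s)) (F s)
        hstr hd0 (Hz P Q y (G u)) = G u := by
      have : Tendsto G (𝓝 s) (𝓝 (F s)) := by
        have := hGc.tendsto
        rwa [hGs] at this
      exact this.eventually hloc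
    filter_upwards [h1, h2, isOpen_ball.mem_nhds hs] with u e1 e2 hu
    rw [hHF u hu] at e1
    rw [hHG u hu] at e2
    rw [← e1, ← e2]
  have heq := (hF.1.analyticOnNhd isOpen_ball).eqOn_of_preconnected_of_eventuallyEq
    (hGd.analyticOnNhd isOpen_ball) (convex_ball (0 : ℂ) τ).isPreconnected hs hev
  have h0 := heq (mem_ball_self hτ)
  have h1 : F 0 = F' (l * 0) := h0
  rw [mul_zero, hF.2.1, hF'.2.1] at h1
  exact h1

theorem NCV (hBRA : BRA_stmt) (hBRS : BRS_stmt) : NCV_stmt := by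
  classical
  intro r hr hr8
  obtain ⟨q, c, hc, hnet⟩ := NCV_net (r / 40) (by positivity)
  refine ⟨q, ?_⟩
  intro P Q N hA hN hB
  choose! X hX using hB
  set t : ℂ → Fin q → ℂ := fun x j =>
    ((c j).2 * P x - (c j).1 * Q x) / ((c j).1 * conj (P x) + (c j).2 * conj (Q x)) with ht
  set T : Fin q → Set ℂ := fun j => {y | ∃ x ∈ N,
    (c j).1 * conj (P x) + (c j).2 * conj (Q x) ≠ 0 ∧ ‖t x j‖ < r / 40 ∧ y = X x (t x j)} with hT
  set Xb : ℂ → ℂ → ℂ := fun y =>
    if h : ∃ X', Br P Q (ball 0 (9 / 10)) y (r / 2) X' then h.choose else 0 with hXb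
  have hsub : ball (0 : ℂ) (9 / 10) ⊆ ball 0 1 := ball_subset_ball (by norm_num)
  have hsub' : ball (0 : ℂ) (4 / 5) ⊆ ball 0 1 := ball_subset_ball (by norm_num)
  have hr2 : 0 < r / 2 := by positivity
  -- the branches
  have hkey : ∀ x ∈ N, ∀ j, ‖t x j‖ < r / 40 → X x (t x j) ∈ ball (0 : ℂ) (9 / 10) ∧
      Br P Q (ball 0 (9 / 10)) (X x (t x j)) (r / 2) (Xb (X x (t x j))) ∧
      ∃ s ∈ ball (0 : ℂ) (r / 32), Xb (X x (t x j)) s = x := by
    intro x hx j htj
    obtain ⟨h1, X', hX', s, hs, hsx⟩ := NCV_point hBRS hA hr hr8 (hN hx) (hX x hx) htj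
    have hex : ∃ X', Br P Q (ball 0 (9 / 10)) (X x (t x j)) (r / 2) X' := ⟨X', hX'⟩
    have hXbr : Br P Q (ball 0 (9 / 10)) (X x (t x j)) (r / 2) (Xb (X x (t x j))) := by
      rw [hXb]
      simp only
      rw [dif_pos hex]
      exact hex.choose_spec
    refine ⟨h1, hXbr, s, hs, ?_⟩
    have hs2 : s ∈ ball (0 : ℂ) (r / 2) := ball_subset_ball (by linarith) hs
    rw [(hBRA P Q hA _ (hsub h1)).2.2 (r / 2) (r / 2) _ _ (NCV_mono hsub hXbr) (NCV_mono hsub hX')
      s hs2 hs2]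
    exact hsx
  have hTy : ∀ j, ∀ y ∈ T j, y ∈ ball (0 : ℂ) (9 / 10) ∧
      Br P Q (ball 0 (9 / 10)) y (r / 2) (Xb y) ∧ P y * (c j).2 = Q y * (c j).1 := by
    rintro j y ⟨x, hx, hbr, htj, rfl⟩
    obtain ⟨h1, h2, -⟩ := hkey x hx j htj
    refine ⟨h1, h2, ?_⟩
    have htr : t x j ∈ ball (0 : ℂ) r := by
      rw [mem_ball_zero_iff]
      linarith
    have e1 := ((hX x hx).2.2 (t x j) htr).2
    have e2 : t x j * ((c j).1 * conj (P x) + (c j).2 * conj (Q x)) =
        (c j).2 * P x - (c j).1 * Q x := div_mul_cancel₀ _ hbr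
    refine NCV_par e1 ?_ ?_
    · linear_combination e2
    · by_contra hcon
      push Not at hcon
      obtain ⟨g1, g2⟩ := hcon
      have g3 : conj (P x) * P x + conj (Q x) * Q x = 0 := by
        linear_combination conj (P x) * g1 + conj (Q x) * g2
      have g4 : Complex.normSq (P x) + Complex.normSq (Q x) = 0 := by
        rw [mul_comm (conj (P x)), mul_comm (conj (Q x)), Complex.mul_conj, Complex.mul_conj,
          ← Complex.ofReal_add] at g3
        exact_mod_cast g3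
      rcases hA.2.2 x (hsub' (hN hx)) with h | h
      · have := Complex.normSq_pos.2 h
        linarith [Complex.normSq_nonneg (Q x)]
      · have := Complex.normSq_pos.2 h
        linarith [Complex.normSq_nonneg (P x)]
  have hdisj : ∀ j, ∀ y ∈ T j, ∀ y' ∈ T j, y ≠ y' → ∀ s ∈ ball (0 : ℂ) (r / 2),
      ∀ s' ∈ ball (0 : ℂ) (r / 2), Xb y s ≠ Xb y' s' := by
    intro j y hy y' hy' hne s hs s' hs' heq
    obtain ⟨a1, a2, a3⟩ := hTy j y hy
    obtain ⟨b1, b2, b3⟩ := hTy j y' hy'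
    exact hne (NCV_disj hBRA hA hr2 (hc j) (hsub a1) (hsub b1) a3 b3 (NCV_mono hsub a2)
      (NCV_mono hsub b2) hs hs' heq)
  refine ⟨T, Xb, ?_, hdisj, ?_⟩
  · intro j
    refine ⟨?_, fun y hy => ⟨(hTy j y hy).1, (hTy j y hy).2.1⟩⟩
    refine Set.PairwiseDisjoint.countable_of_isOpen (s := fun y => Xb y '' ball 0 (r / 2)) ?_ ?_ ?_
    · intro y hy y' hy' hne
      show Disjoint (Xb y '' ball 0 (r / 2)) (Xb y' '' ball 0 (r / 2))
      rw [Set.disjoint_left]
      rintro w ⟨s, hs, rfl⟩ ⟨s', hs', h⟩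
      exact hdisj j y hy y' hy' hne s hs s' hs' h.symm
    · intro y hy
      obtain ⟨a1, a2, -⟩ := hTy j y hy
      exact NCV_open hBRA hA hr2 (hsub a1) (NCV_mono hsub a2)
    · intro y _
      exact ⟨Xb y 0, 0, mem_ball_self hr2, rfl⟩
  · intro x hx
    obtain ⟨j, hj⟩ := hnet (P x) (Q x) (hA.2.2 x (hsub' (hN hx)))
    have hbn : 0 < ‖(c j).1 * conj (P x) + (c j).2 * conj (Q x)‖ := by
      by_contra h
      have h0 : ‖(c j).1 * conj (P x) + (c j).2 * conj (Q x)‖ = 0 :=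
        le_antisymm (not_lt.1 h) (norm_nonneg _)
      rw [h0, mul_zero] at hj
      exact absurd hj (not_lt.2 (norm_nonneg _))
    have hbr : (c j).1 * conj (P x) + (c j).2 * conj (Q x) ≠ 0 := norm_pos_iff.1 hbn
    have htj : ‖t x j‖ < r / 40 := by
      show ‖((c j).2 * P x - (c j).1 * Q x) / ((c j).1 * conj (P x) + (c j).2 * conj (Q x))‖ < _
      rw [norm_div, div_lt_iff₀ hbn]
      exact hj
    obtain ⟨-, -, s, hs, hsx⟩ := hkey x hx j htj
    exact ⟨j, X x (t x j), ⟨x, hx, hbr, htj, rfl⟩, s, hs, hsx⟩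

end Pool.Agent.P2N
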